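import Pool.Agent.EKH.Gcx

/-!
# GROW for a subgroup of a normal subgroup

Helper33, for MP_0707f5_ag (tower extension of helper41).

`N` is normal, `Λ ≤ N`, all handles are killed by `N`.  `C` is a context which is transitive on the orbit
of the base coset under `N ⊓ GI (X ++ hl B)`, and full together with it.  Moves inside `X ++ hl B` lead to
`X' ++ hl (B' ++ P)` such that `C` with `P` is full, and `P` is short.
-/

set_option autoImplicit false

namespace Pool.Agent.EKH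

open Module Relation
open SpQ (Hd WReach Good cj1)
open LGC (It hl GI Kl IReach cls GI_append_hl hl_append GI_mono mem_GI mem_hl grp Kl_list Kl_iff)
open EKL (alg alg_mono mem_alg sg alg_le_iff St Fl Ir dyn2 two)

section gcn
variable {K V₁ V₂ : Type*} [Field K] [IsAlgClosed K] [AddCommGroup V₁] [Module K V₁]
  [FiniteDimensional K V₁] [Nontrivial V₁] [AddCommGroup V₂] [Module K V₂]
  [FiniteDimensional K V₂] [Nontrivial V₂] {Γ : Type} [Group Γ]

/-- the part of `N` in the group of a list with a handle more at each free position -/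
theorem essN {k : ℕ} {N Λ : Subgroup Γ} [N.Normal] {R : Λ →* Module.End K V₁ × Module.End K V₂}
    (hi : Ir R) (C : Subgroup Γ) (X : List (It Γ k)) (B : List (Hd Γ k)) (hB : ∀ h ∈ B, Kl N h)
    (ho : Orb Λ C (C ⊔ (N ⊓ GI (X ++ hl B)))) (hF : Fl R (C ⊔ (N ⊓ GI (X ++ hl B)))) :
    ∃ I : Finset (Fin B.length), I.card ≤ 4 * (finrank K V₁ - 1) + 4 * (finrank K V₂ - 1) + 1 ∧
      Fl R (C ⊔ (N ⊓ GI (X ++ hl (pos B I)))) := by
  classical
  have hle : ∀ D D' : List (Hd Γ k), (∀ q ∈ D, q ∈ D') → GI (X ++ hl D) ≤ GI (X ++ hl D') := by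
    intro D D' h
    rw [GI_append_hl, GI_append_hl]
    exact sup_le_sup le_rfl (E_sub h)
  have hposB : ∀ I, ∀ q ∈ pos B I, q ∈ B := by
    intro I q hq
    obtain ⟨i, -, rfl⟩ := mem_pos.1 hq
    exact List.get_mem _ _
  let A : Finset (Fin B.length) → Subalgebra K (Module.End K V₁ × Module.End K V₂) := fun I =>
    alg K R ((C ⊔ (N ⊓ GI (X ++ hl (pos B I)))).subgroupOf Λ)
  have hGu : GI (X ++ hl (pos B Finset.univ)) = GI (X ++ hl B) := by
    rw [GI_append_hl, GI_append_hl, E_pos_univ]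
  have hAu : A Finset.univ = alg K R ⊤ := by
    show alg K R ((C ⊔ (N ⊓ GI (X ++ hl (pos B Finset.univ)))).subgroupOf Λ) = alg K R ⊤
    rw [hGu]
    exact hF
  have hmo : ∀ {I J : Finset (Fin B.length)}, I ⊆ J →
      C ⊔ (N ⊓ GI (X ++ hl (pos B I))) ≤ C ⊔ (N ⊓ GI (X ++ hl (pos B J))) := by
    intro I J hIJ
    refine sup_le_sup le_rfl (inf_le_inf le_rfl (hle _ _ fun q hq => ?_))
    obtain ⟨i, hi, hq⟩ := mem_pos.1 hq
    exact mem_pos.2 ⟨i, hIJ hi, hq⟩
  have hm : Monotone A := fun I J hIJ => alg_mono R (Subgroup.comap_mono (hmo hIJ))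
  have hg : ∀ I ⊂ Finset.univ, A Finset.univ ≤ ⨆ j ∈ Finset.univ \ I, A (insert j I) := by
    intro I hI
    set T : Subalgebra K (Module.End K V₁ × Module.End K V₂) :=
      ⨆ j ∈ Finset.univ \ I, A (insert j I) with hT
    have hAT : ∀ j ∈ Finset.univ \ I, (C ⊔ (N ⊓ GI (X ++ hl (pos B (insert j I))))).subgroupOf Λ ≤
        sg R T := by
      intro j hj
      rw [← alg_le_iff]
      exact le_iSup₂_of_le j hj le_rfl
    obtain ⟨j₀, hj₀⟩ : ∃ j₀, j₀ ∈ Finset.univ \ I := Finset.sdiff_nonempty.2 hI.2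
    have hne : Nonempty {j // j ∈ Finset.univ \ I} := ⟨⟨j₀, hj₀⟩⟩
    let G : {j // j ∈ Finset.univ \ I} → Subgroup Γ := fun j =>
      C ⊔ (N ⊓ GI (X ++ hl (pos B (insert j.1 I))))
    have hGle : (⨆ j, G j) ≤ C ⊔ (N ⊓ GI (X ++ hl B)) := iSup_le fun j =>
      sup_le_sup le_rfl (inf_le_inf le_rfl (hle _ _ (hposB _)))
    have hleG : C ⊔ (N ⊓ GI (X ++ hl B)) ≤ ⨆ j, G j := by
      refine sup_le (le_trans le_sup_left (le_iSup G ⟨j₀, hj₀⟩)) ?_
      refine grp X B hB _ ?_ ?_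
      · refine le_trans ?_ (le_iSup G ⟨j₀, hj₀⟩)
        refine le_trans (inf_le_inf le_rfl ?_) le_sup_right
        rw [GI_append_hl]
        exact le_sup_left
      · intro v hv q hq
        obtain ⟨i, hiq⟩ := List.get_of_mem hq
        obtain ⟨j, hj, hqj⟩ : ∃ j ∈ Finset.univ \ I, q ∈ pos B (insert j I) := by
          by_cases hiI : i ∈ I
          · exact ⟨j₀, hj₀, mem_pos.2 ⟨i, Finset.mem_insert_of_mem hiI, hiq⟩⟩
          · exact ⟨i, Finset.mem_sdiff.2 ⟨Finset.mem_univ i, hiI⟩,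
              mem_pos.2 ⟨i, Finset.mem_insert_self i I, hiq⟩⟩
        refine le_trans ?_ (le_iSup G ⟨j, hj⟩)
        refine le_trans ?_ (le_sup_right (a := C))
        have hk := (hB q hq).cj1 v
        have hv' : v ∈ GI (X ++ hl (pos B (insert j I))) := by
          rw [GI_append_hl]
          exact Subgroup.mem_sup_left hv
        have hE : SpQ.E [q] ≤ GI (X ++ hl (pos B (insert j I))) := by
          rw [GI_append_hl]
          exact (E_le_iff.1 le_rfl q hqj).trans le_sup_right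
        obtain ⟨h3, h4⟩ := SpQ.E_singleton_le.1 hE
        rw [SpQ.E_singleton_le]
        exact ⟨⟨hk.1, Subgroup.mul_mem _ (Subgroup.mul_mem _ (Subgroup.inv_mem _ hv') h3) hv'⟩,
          ⟨hk.2, Subgroup.mul_mem _ (Subgroup.mul_mem _ (Subgroup.inv_mem _ hv') h4) hv'⟩⟩
    have key : Λ ⊓ (⨆ j, G j) ≤ (sg R T).map Λ.subtype := by
      refine sch G (C := C) (fun j => le_sup_left) (ho.mono le_rfl hGle) ?_
      rintro ⟨j, hj⟩ z ⟨hz, hz'⟩
      exact ⟨⟨z, hz⟩, hAT j hj (Subgroup.mem_subgroupOf.2 hz'), rfl⟩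
    show alg K R ((C ⊔ (N ⊓ GI (X ++ hl (pos B Finset.univ)))).subgroupOf Λ) ≤ T
    rw [hGu, alg_le_iff]
    intro z hz
    obtain ⟨y, hy, hyz⟩ := key ⟨z.2, hleG (Subgroup.mem_subgroupOf.1 hz)⟩
    have h3 : y = z := Subtype.ext hyz
    rwa [← h3]
  obtain ⟨I, -, hcard, hI⟩ := two Finset.univ A hm hg
    (by
      intro W hW
      rw [hAu] at hW
      exact hi.1 W fun x v hv => hW.apply ⟨R x, mem_alg R (Subgroup.mem_top x), rfl⟩ hv)
    (by
      intro W hW
      rw [hAu] at hW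
      exact hi.2 W fun x v hv => hW.apply ⟨R x, mem_alg R (Subgroup.mem_top x), rfl⟩ hv)
  exact ⟨I, hcard, hI.trans hAu⟩

/-- **a long list contains a spare handle** -/
theorem spareN {k : ℕ} {N Λ : Subgroup Γ} [N.Normal] {R : Λ →* Module.End K V₁ × Module.End K V₂}
    (hi : Ir R) (C : Subgroup Γ) (X : List (It Γ k)) (B : List (Hd Γ k)) (hB : ∀ h ∈ B, Kl N h)
    (ho : Orb Λ C (C ⊔ (N ⊓ GI (X ++ hl B)))) (hF : Fl R (C ⊔ (N ⊓ GI (X ++ hl B))))
    (hlen : 4 * (finrank K V₁ - 1) + 4 * (finrank K V₂ - 1) + 1 < B.length) :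
    ∃ (s : List (Hd Γ k)) (p : Hd Γ k) (t : List (Hd Γ k)), B = s ++ p :: t ∧
      Fl R (C ⊔ (N ⊓ GI (X ++ hl (s ++ t)))) := by
  obtain ⟨I, hcard, hI⟩ := essN hi C X B hB ho hF
  obtain ⟨i, hi⟩ : ∃ i : Fin B.length, i ∉ I := by
    by_contra hcon
    push Not at hcon
    have h3 : I = Finset.univ := Finset.eq_univ_of_forall hcon
    rw [h3, Finset.card_univ, Fintype.card_fin] at hcard
    omega
  have hsplit : B = B.take i ++ B.get i :: B.drop (i + 1) := by
    rw [List.get_eq_getElem, List.getElem_cons_drop, List.take_append_drop]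
  refine ⟨B.take i, B.get i, B.drop (i + 1), hsplit, hI.mono ?_⟩
  refine sup_le_sup le_rfl (inf_le_inf le_rfl ?_)
  rw [GI_append_hl, GI_append_hl]
  refine sup_le_sup le_rfl (E_sub fun q hq => ?_)
  obtain ⟨j, hj, rfl⟩ := mem_pos.1 hq
  have hji : j ≠ i := fun h => hi (h ▸ hj)
  rcases lt_or_gt_of_ne hji with hlt | hlt
  · apply List.mem_append_left
    rw [List.mem_take_iff_getElem]
    exact ⟨j, by
      rw [lt_min_iff]
      exact ⟨hlt, j.2⟩, rfl⟩
  · apply List.mem_append_right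
    rw [List.mem_drop_iff_getElem]
    refine ⟨(j : ℕ) - (i + 1), ?_, ?_⟩
    · have := j.2
      omega
    · have h5 : (i : ℕ) + 1 + (j - (i + 1)) = j := by
        have : (i : ℕ) < j := hlt
        omega
      simp only [h5, List.get_eq_getElem]

/-- **the spare handles generate everything** -/
theorem genN (hA : LGC.St_All) (hG : LGC.St_Gek) {N Λ : Subgroup Γ} [N.Normal]
    {R : Λ →* Module.End K V₁ × Module.End K V₂}
    (hi : Ir R) (C : Subgroup Γ) (X : List (It Γ 1)) (B : List (Hd Γ 1)) (hB : ∀ h ∈ B, Kl N h)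
    (ho : Orb Λ C (C ⊔ (N ⊓ GI (X ++ hl B)))) (hF : Fl R (C ⊔ (N ⊓ GI (X ++ hl B))))
    (hlen : 4 * (finrank K V₁ - 1) + 4 * (finrank K V₂ - 1) + 1 < B.length) (H : Subgroup Γ)
    (hH : ∀ (X' : List (It Γ 1)) (B₁ : List (Hd Γ 1)) (p : Hd Γ 1),
      IReach (X ++ hl B) (X' ++ hl (B₁ ++ [p])) → X'.map (cls N) = X.map (cls N) →
      (∀ h ∈ B₁ ++ [p], Kl N h) → B₁.length + 1 = B.length →
      Fl R (C ⊔ (N ⊓ GI (X' ++ hl B₁))) → SpQ.E [p] ≤ H) :
    N ⊓ GI (X ++ hl B) ≤ H := by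
  have hBne : B ≠ [] := by
    intro h0
    rw [h0, List.length_nil] at hlen
    omega
  refine hG Γ 1 N X B hBne (fun h _ => good1 h) hB H ?_
  intro X'' B'' hr' hcl' hlen' hg' hk'
  have hEN : SpQ.E B'' ≤ N := Kl_list.1 hk'
  have hGI : GI (X'' ++ hl B'') = GI (X ++ hl B) := hr'.GI_eq
  refine hA Γ 1 (fun G => Fl R (C ⊔ (N ⊓ (GI X'' ⊔ G)))) B'' H hg' ?_ ?_
  · intro B₃ hw3 hg3
    have hE3 : SpQ.E B₃ = SpQ.E B'' := hw3.E_eq
    have hk3 : ∀ h ∈ B₃, Kl N h := Kl_list.2 (by rw [hE3]; exact hEN)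
    have hGI3 : GI (X'' ++ hl B₃) = GI (X ++ hl B) := by
      rw [GI_append_hl, hE3, ← GI_append_hl, hGI]
    have hlen3 : B₃.length = B''.length := hw3.length_eq
    obtain ⟨s, p, t, h1, h2⟩ := spareN hi C X'' B₃ hk3 (by rw [hGI3]; exact ho)
      (by rw [hGI3]; exact hF) (by omega)
    refine ⟨s, p, t, h1, ?_⟩
    show Fl R (C ⊔ (N ⊓ (GI X'' ⊔ SpQ.E (s ++ t))))
    rw [← GI_append_hl]
    exact h2
  · intro B₃ p hw3 hg3 hfull
    have hfull' : Fl R (C ⊔ (N ⊓ (GI X'' ⊔ SpQ.E B₃))) := hfull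
    have hE3 : SpQ.E (B₃ ++ [p]) = SpQ.E B'' := hw3.E_eq
    have hk3 : ∀ h ∈ B₃ ++ [p], Kl N h := Kl_list.2 (by rw [hE3]; exact hEN)
    have hlen3 : (B₃ ++ [p]).length = B''.length := hw3.length_eq
    rw [List.length_append, List.length_singleton] at hlen3
    refine hH X'' B₃ p ?_ hcl' hk3 (by omega) ?_
    · refine hr'.trans ?_
      have h4 := IReach.of_wreach' hw3 X'' []
      rwa [List.append_nil, List.append_nil] at h4
    · rw [GI_append_hl]
      exact hfull'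

/-- the states -/
private abbrev Sta (Γ : Type) : Type := List (It Γ 1) × List (Hd Γ 1) × List (Hd Γ 1)

/-- a spare handle is moved to `P` -/
private def nxt {Λ : Subgroup Γ} (N : Subgroup Γ) (R : Λ →* Module.End K V₁ × Module.End K V₂)
    (C : Subgroup Γ) (s t : Sta Γ) : Prop :=
  ∃ p : Hd Γ 1, t.2.2 = [p] ++ s.2.2 ∧ IReach (s.1 ++ hl s.2.1) (t.1 ++ hl (t.2.1 ++ [p])) ∧
    t.1.map (cls N) = s.1.map (cls N) ∧ (∀ h ∈ t.2.1 ++ [p], Kl N h) ∧
    t.2.1.length + 1 = s.2.1.length ∧ Fl R (C ⊔ (N ⊓ GI (t.1 ++ hl t.2.1)))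

/-- **GROW in a normal subgroup** -/
theorem growN (hA : LGC.St_All) (hG : LGC.St_Gek) {N Λ : Subgroup Γ} [N.Normal]
    {R : Λ →* Module.End K V₁ × Module.End K V₂}
    (hi : Ir R) (C : Subgroup Γ) (X : List (It Γ 1)) (B : List (Hd Γ 1)) (hB : ∀ h ∈ B, Kl N h)
    (ho : Orb Λ C (C ⊔ (N ⊓ GI (X ++ hl B)))) (hF : Fl R (C ⊔ (N ⊓ GI (X ++ hl B))))
    (hlen : 8 * (finrank K V₁ - 1) + 8 * (finrank K V₂ - 1) + 3 ≤ B.length) :
    ∃ (X' : List (It Γ 1)) (B' P : List (Hd Γ 1)),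
      IReach (X ++ hl B) (X' ++ hl (B' ++ P)) ∧ X'.map (cls N) = X.map (cls N) ∧
      (∀ h ∈ B' ++ P, Kl N h) ∧ B'.length + P.length = B.length ∧
      P.length ≤ 4 * (finrank K V₁ - 1) + 4 * (finrank K V₂ - 1) + 1 ∧
      Fl R (C ⊔ (N ⊓ GI (X' ++ hl B'))) ∧ Fl R (C ⊔ SpQ.E P) := by
  set m := 4 * (finrank K V₁ - 1) + 4 * (finrank K V₂ - 1) + 1 with hm
  let A : Sta Γ → Subalgebra K (Module.End K V₁ × Module.End K V₂) :=
    fun s => alg K R ((C ⊔ SpQ.E s.2.2).subgroupOf Λ)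
  let s₀ : Sta Γ := (X, B, [])
  have hinv : ∀ s, ReflTransGen (nxt N R C) s₀ s →
      IReach (X ++ hl B) (s.1 ++ hl (s.2.1 ++ s.2.2)) ∧ s.1.map (cls N) = X.map (cls N) ∧
      (∀ h ∈ s.2.1 ++ s.2.2, Kl N h) ∧
      s.2.1.length + s.2.2.length = B.length ∧ Fl R (C ⊔ (N ⊓ GI (s.1 ++ hl s.2.1))) := by
    intro s hs
    induction hs with
    | refl =>
      refine ⟨?_, rfl, ?_, ?_, hF⟩
      · show IReach (X ++ hl B) (X ++ hl (B ++ []))
        rw [List.append_nil]
        exact IReach.refl _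
      · show ∀ h ∈ B ++ [], Kl N h
        rw [List.append_nil]
        exact hB
      · show B.length + 0 = B.length
        rw [add_zero]
    | @tail s t _ hst ih =>
      obtain ⟨h1, h0, hk, h2, h3⟩ := ih
      obtain ⟨p, e1, e2, e0, ek, e3, e4⟩ := hst
      refine ⟨?_, e0.trans h0, ?_, ?_, e4⟩
      · refine h1.trans ?_
        have h7 := e2.right (hl s.2.2)
        have a1 : s.1 ++ hl s.2.1 ++ hl s.2.2 = s.1 ++ hl (s.2.1 ++ s.2.2) := by
          rw [hl_append, List.append_assoc]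
        have a2 : t.1 ++ hl (t.2.1 ++ [p]) ++ hl s.2.2 = t.1 ++ hl (t.2.1 ++ t.2.2) := by
          rw [e1, hl_append, hl_append, hl_append, List.append_assoc, List.append_assoc]
        rwa [a1, a2] at h7
      · intro h hh
        rw [e1, ← List.append_assoc] at hh
        rcases List.mem_append.1 hh with h5 | h5
        · exact ek h h5
        · exact hk h (List.mem_append_right _ h5)
      · rw [e1, List.length_append, List.length_singleton]
        omega
  obtain ⟨s, hs, hl1, hl2⟩ := dyn2 A (alg K R ⊤) (fun s => s.2.2.length) (nxt N R C)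
    (B.length - m) s₀
    (by
      rintro s t ⟨p, e1, -⟩
      show t.2.2.length = s.2.2.length + 1
      rw [e1, List.length_append, List.length_singleton]
      omega)
    (by
      rintro s t ⟨p, e1, -⟩
      refine alg_mono R (Subgroup.comap_mono (sup_le_sup le_rfl ?_))
      rw [e1, SpQ.E_append]
      exact le_sup_right)
    (by
      intro s hs hsM T hT
      obtain ⟨h1, h0, hk, h2, h3⟩ := hinv s hs
      have hsM' : s.2.2.length < B.length - m := hsM
      have hk1 : ∀ h ∈ s.2.1, Kl N h := fun h hh => hk h (List.mem_append_left _ hh)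
      have hk2 : ∀ h ∈ s.2.2, Kl N h := fun h hh => hk h (List.mem_append_right _ hh)
      have hEB : GI (s.1 ++ hl s.2.1) ⊔ SpQ.E s.2.2 = GI (X ++ hl B) := by
        rw [← h1.GI_eq, hl_append, ← List.append_assoc, GI_append_hl (s.1 ++ hl s.2.1) s.2.2]
      have hs1B : N ⊓ GI (s.1 ++ hl s.2.1) ≤ N ⊓ GI (X ++ hl B) := by
        rw [← hEB]
        exact inf_le_inf le_rfl le_sup_left
      have hs2B : SpQ.E s.2.2 ≤ N ⊓ GI (X ++ hl B) := by
        rw [← hEB]
        exact le_inf (Kl_list.1 hk2) le_sup_right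
      have ho' : Orb Λ C (C ⊔ (N ⊓ GI (s.1 ++ hl s.2.1))) :=
        ho.mono le_rfl (sup_le_sup le_rfl hs1B)
      have hlen' : 4 * (finrank K V₁ - 1) + 4 * (finrank K V₂ - 1) + 1 < s.2.1.length := by omega
      -- the next states
      let ι : Type := {t : Sta Γ // nxt N R C s t}
      let G : ι → Subgroup Γ := fun t => C ⊔ SpQ.E t.1.2.2
      have hGT : ∀ t : ι, (G t).subgroupOf Λ ≤ sg R T := by
        rintro ⟨t, ht⟩
        rw [← alg_le_iff]
        exact hT t ht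
      have hne : Nonempty ι := by
        obtain ⟨a, p, b, e1, e2⟩ := spareN hi C s.1 s.2.1 hk1 ho' h3 hlen'
        obtain ⟨v, -, hr⟩ := LGP.move_end b p
        have hr' := hr.left a
        rw [← e1, ← List.append_assoc] at hr'
        refine ⟨(s.1, a ++ b, [cj1 v p] ++ s.2.2), cj1 v p, rfl, ?_, rfl, ?_, ?_, e2⟩
        · have h4 := IReach.of_wreach' hr' s.1 []
          rwa [List.append_nil, List.append_nil] at h4
        · rw [Kl_list, hr'.E_eq]
          exact Kl_list.1 hk1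
        · have h6 := hr'.length_eq
          rw [List.length_append, List.length_singleton] at h6
          exact h6
      have hEs : N ⊓ GI (s.1 ++ hl s.2.1) ≤ ⨆ t, G t := by
        refine genN hA hG hi C s.1 s.2.1 hk1 ho' h3 hlen' _ ?_
        intro X' B₁ p e1 e0 ek e2 e3
        refine le_trans ?_ (le_iSup G ⟨(X', B₁, [p] ++ s.2.2), p, rfl, e1, e0, ek, e2, e3⟩)
        show SpQ.E [p] ≤ C ⊔ SpQ.E ([p] ++ s.2.2)
        rw [SpQ.E_append]
        exact le_trans le_sup_left le_sup_right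
      have hCs : ∀ t : ι, C ≤ G t := fun t => le_sup_left
      have hGle : (⨆ t, G t) ≤ C ⊔ (N ⊓ GI (X ++ hl B)) := by
        refine iSup_le ?_
        rintro ⟨t, p, e1, e2, e0, ek, -⟩
        refine sup_le_sup le_rfl ?_
        show SpQ.E t.2.2 ≤ N ⊓ GI (X ++ hl B)
        rw [e1, SpQ.E_append]
        refine sup_le (le_trans (le_inf ?_ ?_) hs1B) hs2B
        · exact Kl_iff.1 (ek p (by simp))
        · rw [← e2.GI_eq, hl_append, ← List.append_assoc, GI_append_hl (t.1 ++ hl t.2.1) [p]]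
          exact le_sup_right
      have hleG : C ⊔ (N ⊓ GI (s.1 ++ hl s.2.1)) ≤ ⨆ t, G t := by
        obtain ⟨t₀⟩ := hne
        exact sup_le ((hCs t₀).trans (le_iSup G t₀)) hEs
      have key : Λ ⊓ (⨆ t, G t) ≤ (sg R T).map Λ.subtype := by
        refine sch G (C := C) hCs (ho.mono le_rfl hGle) ?_
        rintro t z ⟨hz, hz'⟩
        exact ⟨⟨z, hz⟩, hGT t (Subgroup.mem_subgroupOf.2 hz'), rfl⟩
      have h5 : alg K R ((C ⊔ (N ⊓ GI (s.1 ++ hl s.2.1))).subgroupOf Λ) = alg K R ⊤ := h3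
      rw [← h5, alg_le_iff]
      intro z hz
      obtain ⟨y, hy, hyz⟩ := key ⟨z.2, hleG (Subgroup.mem_subgroupOf.1 hz)⟩
      have h6 : y = z := Subtype.ext hyz
      rwa [← h6])
    (by
      intro W hW
      refine hi.1 W fun x v hv => ?_
      exact hW.apply ⟨R x, mem_alg R (Subgroup.mem_top x), rfl⟩ hv)
    (by
      intro W hW
      refine hi.2 W fun x v hv => ?_
      exact hW.apply ⟨R x, mem_alg R (Subgroup.mem_top x), rfl⟩ hv)
    (by
      show 0 + _ ≤ _
      omega)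
  obtain ⟨h1, h0, hk, h2, h3⟩ := hinv s hs
  refine ⟨s.1, s.2.1, s.2.2, h1, h0, hk, h2, ?_, h3, le_antisymm (alg_mono R le_top) hl2⟩
  have h7 : s.2.2.length ≤ 0 + m := hl1
  omega

end gcn

end Pool.Agent.EKH
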