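import Pool.Agent.EKH.Gro

/-!
# GROW with a context

Helper33, for MP_0707f5_ag (arbitrary subgroups of small index; plan of helper21, helper59, helper1).

The items `X ++ hl B` are moved; `C₀`, `C₁` are contexts which are transitive on the orbit of the base
coset, and full together with `X ++ hl B`.
-/

set_option autoImplicit false

namespace Pool.Agent.EKH

open Module Relation
open SpQ (Hd WReach Good)
open LGC (It hl GI Kl IReach cls GI_append_hl hl_append)
open EKL (alg alg_mono mem_alg sg alg_le_iff St Fl Ir dyn2)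

section gcx
variable {K V₁ V₂ : Type*} [Field K] [IsAlgClosed K] [AddCommGroup V₁] [Module K V₁]
  [FiniteDimensional K V₁] [Nontrivial V₁] [AddCommGroup V₂] [Module K V₂]
  [FiniteDimensional K V₂] [Nontrivial V₂] {Γ : Type} [Group Γ]

theorem kl_top (h : Hd Γ 1) : Kl (⊤ : Subgroup Γ) h := ⟨Subgroup.mem_top _, Subgroup.mem_top _⟩

/-- **the spare handles generate everything** -/
theorem genX (hA : LGC.St_All) (hG : LGC.St_Gek) {Λ : Subgroup Γ}
    {R : Λ →* Module.End K V₁ × Module.End K V₂}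
    (hi : Ir R) (C : Subgroup Γ) (X : List (It Γ 1)) (B : List (Hd Γ 1))
    (ho : Orb Λ C (C ⊔ GI (X ++ hl B))) (hF : Fl R (C ⊔ GI (X ++ hl B)))
    (hlen : 4 * (finrank K V₁ - 1) + 4 * (finrank K V₂ - 1) + 1 < B.length) (H : Subgroup Γ)
    (hH : ∀ (X' : List (It Γ 1)) (B₁ : List (Hd Γ 1)) (p : Hd Γ 1),
      IReach (X ++ hl B) (X' ++ hl (B₁ ++ [p])) → X'.length = X.length →
      B₁.length + 1 = B.length → Fl R (C ⊔ GI (X' ++ hl B₁)) → SpQ.E [p] ≤ H) :
    GI (X ++ hl B) ≤ H := by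
  have hBne : B ≠ [] := by
    intro h0
    rw [h0, List.length_nil] at hlen
    omega
  have key : (⊤ : Subgroup Γ) ⊓ GI (X ++ hl B) ≤ H := by
    refine hG Γ 1 ⊤ X B hBne (fun h _ => good1 h) (fun h _ => kl_top h) _ ?_
    intro X'' B'' hr' hcl' hlen' hg' hk'
    have hXl : X''.length = X.length := by
      have h1 := congrArg List.length hcl'
      rwa [List.length_map, List.length_map] at h1
    have hGI : GI (X'' ++ hl B'') = GI (X ++ hl B) := hr'.GI_eq
    have hsup : C ⊔ GI X'' ⊔ SpQ.E B'' = C ⊔ GI (X ++ hl B) := by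
      rw [sup_assoc, ← GI_append_hl, hGI]
    have ho' : Orb Λ (C ⊔ GI X'') (C ⊔ GI X'' ⊔ SpQ.E B'') := by
      rw [hsup]
      exact ho.mono le_sup_left le_rfl
    have hF' : Fl R (C ⊔ GI X'' ⊔ SpQ.E B'') := by
      rw [hsup]
      exact hF
    refine gen hA hi (C ⊔ GI X'') B'' ho' hF' (by omega) H ?_
    intro B₁ p hw hl1 hfull
    refine hH X'' B₁ p ?_ hXl (by omega) ?_
    · refine hr'.trans ?_
      have h4 := IReach.of_wreach' hw X'' []
      rwa [List.append_nil, List.append_nil] at h4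
    · rwa [GI_append_hl, ← sup_assoc]
  rwa [top_inf_eq] at key

/-- the states -/
private abbrev Sta (Γ : Type) : Type := List (It Γ 1) × List (Hd Γ 1) × List (Hd Γ 1)

/-- a spare handle is moved to `P` -/
private def nxt {Λ : Subgroup Γ} (R : Λ →* Module.End K V₁ × Module.End K V₂) (C₀ : Subgroup Γ)
    (s t : Sta Γ) : Prop :=
  ∃ p : Hd Γ 1, t.2.2 = [p] ++ s.2.2 ∧ IReach (s.1 ++ hl s.2.1) (t.1 ++ hl (t.2.1 ++ [p])) ∧
    t.1.length = s.1.length ∧ t.2.1.length + 1 = s.2.1.length ∧ Fl R (C₀ ⊔ GI (t.1 ++ hl t.2.1))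

/-- **GROW with a context** -/
theorem growX (hA : LGC.St_All) (hG : LGC.St_Gek) {Λ : Subgroup Γ}
    {R : Λ →* Module.End K V₁ × Module.End K V₂}
    (hi : Ir R) (C₀ C₁ : Subgroup Γ) (X : List (It Γ 1)) (B : List (Hd Γ 1))
    (ho₀ : Orb Λ C₀ (C₀ ⊔ GI (X ++ hl B))) (ho₁ : Orb Λ C₁ (C₁ ⊔ GI (X ++ hl B)))
    (hF₀ : Fl R (C₀ ⊔ GI (X ++ hl B))) (hF₁ : Fl R (C₁ ⊔ GI (X ++ hl B)))
    (hlen : 8 * (finrank K V₁ - 1) + 8 * (finrank K V₂ - 1) + 3 ≤ B.length) :
    ∃ (X' : List (It Γ 1)) (B' P : List (Hd Γ 1)),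
      IReach (X ++ hl B) (X' ++ hl (B' ++ P)) ∧ X'.length = X.length ∧
      B'.length + P.length = B.length ∧
      P.length ≤ 4 * (finrank K V₁ - 1) + 4 * (finrank K V₂ - 1) + 1 ∧
      Fl R (C₀ ⊔ GI (X' ++ hl B')) ∧ Fl R (C₁ ⊔ SpQ.E P) := by
  set m := 4 * (finrank K V₁ - 1) + 4 * (finrank K V₂ - 1) + 1 with hm
  let A : Sta Γ → Subalgebra K (Module.End K V₁ × Module.End K V₂) :=
    fun s => alg K R ((C₁ ⊔ SpQ.E s.2.2).subgroupOf Λ)
  let s₀ : Sta Γ := (X, B, [])
  have hinv : ∀ s, ReflTransGen (nxt R C₀) s₀ s →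
      IReach (X ++ hl B) (s.1 ++ hl (s.2.1 ++ s.2.2)) ∧ s.1.length = X.length ∧
      s.2.1.length + s.2.2.length = B.length ∧ Fl R (C₀ ⊔ GI (s.1 ++ hl s.2.1)) := by
    intro s hs
    induction hs with
    | refl =>
      refine ⟨?_, rfl, ?_, hF₀⟩
      · show IReach (X ++ hl B) (X ++ hl (B ++ []))
        rw [List.append_nil]
        exact IReach.refl _
      · show B.length + 0 = B.length
        rw [add_zero]
    | @tail s t _ hst ih =>
      obtain ⟨h1, h0, h2, h3⟩ := ih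
      obtain ⟨p, e1, e2, e0, e3, e4⟩ := hst
      refine ⟨?_, e0.trans h0, ?_, e4⟩
      · refine h1.trans ?_
        have h7 := e2.right (hl s.2.2)
        have a1 : s.1 ++ hl s.2.1 ++ hl s.2.2 = s.1 ++ hl (s.2.1 ++ s.2.2) := by
          rw [hl_append, List.append_assoc]
        have a2 : t.1 ++ hl (t.2.1 ++ [p]) ++ hl s.2.2 = t.1 ++ hl (t.2.1 ++ t.2.2) := by
          rw [e1, hl_append, hl_append, hl_append, List.append_assoc, List.append_assoc]
        rwa [a1, a2] at h7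
      · rw [e1, List.length_append, List.length_singleton]
        omega
  obtain ⟨s, hs, hl1, hl2⟩ := dyn2 A (alg K R ⊤) (fun s => s.2.2.length) (nxt R C₀)
    (B.length - m) s₀
    (by
      rintro s t ⟨p, e1, -⟩
      show t.2.2.length = s.2.2.length + 1
      rw [e1, List.length_append, List.length_singleton]
      omega)
    (by
      rintro s t ⟨p, e1, -⟩
      refine alg_mono R (Subgroup.comap_mono (sup_le_sup le_rfl ?_))
      rw [e1, SpQ.E_append]
      exact le_sup_right)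
    (by
      intro s hs hsM T hT
      obtain ⟨h1, h0, h2, h3⟩ := hinv s hs
      have hsM' : s.2.2.length < B.length - m := hsM
      have hEB : GI (s.1 ++ hl s.2.1) ⊔ SpQ.E s.2.2 = GI (X ++ hl B) := by
        rw [← h1.GI_eq, hl_append, ← List.append_assoc, GI_append_hl (s.1 ++ hl s.2.1) s.2.2]
      have hs1B : GI (s.1 ++ hl s.2.1) ≤ GI (X ++ hl B) := by
        rw [← hEB]
        exact le_sup_left
      have hs2B : SpQ.E s.2.2 ≤ GI (X ++ hl B) := by
        rw [← hEB]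
        exact le_sup_right
      have ho₀' : Orb Λ C₀ (C₀ ⊔ GI (s.1 ++ hl s.2.1)) :=
        ho₀.mono le_rfl (sup_le_sup le_rfl hs1B)
      have hlen' : 4 * (finrank K V₁ - 1) + 4 * (finrank K V₂ - 1) + 1 < s.2.1.length := by omega
      -- the next states
      let ι : Type := {t : Sta Γ // nxt R C₀ s t}
      let G : ι → Subgroup Γ := fun t => C₁ ⊔ SpQ.E t.1.2.2
      have hGT : ∀ t : ι, (G t).subgroupOf Λ ≤ sg R T := by
        rintro ⟨t, ht⟩
        rw [← alg_le_iff]
        exact hT t ht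
      have hne : Nonempty ι := by
        have e5 : C₀ ⊔ GI (s.1 ++ hl s.2.1) = C₀ ⊔ GI s.1 ⊔ SpQ.E s.2.1 := by
          rw [GI_append_hl, sup_assoc]
        obtain ⟨a, p, b, e1, e2⟩ := spare hi (C₀ ⊔ GI s.1) s.2.1
          (by
            rw [← e5]
            exact ho₀'.mono le_sup_left le_rfl)
          (by
            rw [← e5]
            exact h3) hlen'
        obtain ⟨v, -, hr⟩ := LGP.move_end b p
        have hr' := hr.left a
        rw [← e1, ← List.append_assoc] at hr'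
        refine ⟨(s.1, a ++ b, [SpQ.cj1 v p] ++ s.2.2), SpQ.cj1 v p, rfl, ?_, rfl, ?_, ?_⟩
        · have h4 := IReach.of_wreach' hr' s.1 []
          rwa [List.append_nil, List.append_nil] at h4
        · have h6 := hr'.length_eq
          rw [List.length_append, List.length_singleton] at h6
          exact h6
        · show Fl R (C₀ ⊔ GI (s.1 ++ hl (a ++ b)))
          rw [GI_append_hl, ← sup_assoc]
          exact e2
      have hEs : GI (s.1 ++ hl s.2.1) ≤ ⨆ t, G t := by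
        refine genX hA hG hi C₀ s.1 s.2.1 ho₀' h3 hlen' _ ?_
        intro X' B₁ p e1 e0 e2 e3
        refine le_trans ?_ (le_iSup G ⟨(X', B₁, [p] ++ s.2.2), p, rfl, e1, e0, e2, e3⟩)
        show SpQ.E [p] ≤ C₁ ⊔ SpQ.E ([p] ++ s.2.2)
        rw [SpQ.E_append]
        exact le_trans le_sup_left le_sup_right
      have hCs : ∀ t : ι, C₁ ⊔ SpQ.E s.2.2 ≤ G t := by
        rintro ⟨t, p, e1, -⟩
        show C₁ ⊔ SpQ.E s.2.2 ≤ C₁ ⊔ SpQ.E t.2.2
        rw [e1, SpQ.E_append]
        exact sup_le_sup le_rfl le_sup_right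
      have hGle : (⨆ t, G t) ≤ C₁ ⊔ GI (X ++ hl B) := by
        refine iSup_le ?_
        rintro ⟨t, p, e1, e2, -⟩
        refine sup_le_sup le_rfl ?_
        show SpQ.E t.2.2 ≤ GI (X ++ hl B)
        rw [e1, SpQ.E_append]
        refine sup_le (le_trans ?_ hs1B) hs2B
        rw [← e2.GI_eq, hl_append, ← List.append_assoc, GI_append_hl (t.1 ++ hl t.2.1) [p]]
        exact le_sup_right
      have hleG : C₁ ⊔ GI (X ++ hl B) ≤ ⨆ t, G t := by
        obtain ⟨t₀⟩ := hne
        rw [← hEB]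
        refine sup_le (le_trans le_sup_left ((hCs t₀).trans (le_iSup G t₀))) (sup_le hEs ?_)
        exact le_trans le_sup_right ((hCs t₀).trans (le_iSup G t₀))
      have key : Λ ⊓ (⨆ t, G t) ≤ (sg R T).map Λ.subtype := by
        refine sch G (C := C₁ ⊔ SpQ.E s.2.2) hCs (ho₁.mono le_sup_left hGle) ?_
        rintro t z ⟨hz, hz'⟩
        exact ⟨⟨z, hz⟩, hGT t (Subgroup.mem_subgroupOf.2 hz'), rfl⟩
      have h5 : alg K R ((C₁ ⊔ GI (X ++ hl B)).subgroupOf Λ) = alg K R ⊤ := hF₁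
      rw [← h5, alg_le_iff]
      intro z hz
      obtain ⟨y, hy, hyz⟩ := key ⟨z.2, hleG (Subgroup.mem_subgroupOf.1 hz)⟩
      have h6 : y = z := Subtype.ext hyz
      rwa [← h6])
    (by
      intro W hW
      refine hi.1 W fun x v hv => ?_
      exact hW.apply ⟨R x, mem_alg R (Subgroup.mem_top x), rfl⟩ hv)
    (by
      intro W hW
      refine hi.2 W fun x v hv => ?_
      exact hW.apply ⟨R x, mem_alg R (Subgroup.mem_top x), rfl⟩ hv)
    (by
      show 0 + _ ≤ _
      omega)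
  obtain ⟨h1, h0, h2, h3⟩ := hinv s hs
  refine ⟨s.1, s.2.1, s.2.2, h1, h0, h2, ?_, h3, le_antisymm (alg_mono R le_top) hl2⟩
  have h7 : s.2.2.length ≤ 0 + m := hl1
  omega

end gcx

end Pool.Agent.EKH
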