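import Pool.Agent.EKH.Sch
import Pool.Agent.LGP.WAll

/-!
# A bounded number of handles with the full algebra, and a full rest

Helper33, for MP_0707f5_ag (arbitrary subgroups of small index; plan of helper21 and helper59).

`B` is a list of handles, `C₀`, `C₁` two contexts which are transitive on the orbit of the base coset, and
full together with `B`.  Moves inside `B` lead to `B' ++ P` such that `C₀` with `B'`, and `C₁` with `P`, are
full, and `P` is short.
-/

set_option autoImplicit false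

namespace Pool.Agent.EKH

open Module Relation
open SpQ (Hd WReach Good)
open EKL (alg alg_mono mem_alg sg alg_le_iff St Fl Ir dyn2)

section gro
variable {K V₁ V₂ : Type*} [Field K] [IsAlgClosed K] [AddCommGroup V₁] [Module K V₁]
  [FiniteDimensional K V₁] [Nontrivial V₁] [AddCommGroup V₂] [Module K V₂]
  [FiniteDimensional K V₂] [Nontrivial V₂] {Γ : Type} [Group Γ]

omit [Group Γ] in
theorem good1 (h : Hd Γ 1) : Good h := Subsingleton.elim (α := ZMod 1 × ZMod 1) _ _

/-- **the spare handles generate everything** -/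
theorem gen (hA : LGC.St_All) {Λ : Subgroup Γ} {R : Λ →* Module.End K V₁ × Module.End K V₂}
    (hi : Ir R) (C : Subgroup Γ) (B : List (Hd Γ 1)) (ho : Orb Λ C (C ⊔ SpQ.E B))
    (hF : Fl R (C ⊔ SpQ.E B))
    (hlen : 4 * (finrank K V₁ - 1) + 4 * (finrank K V₂ - 1) + 1 < B.length) (H : Subgroup Γ)
    (hH : ∀ (B₁ : List (Hd Γ 1)) (p : Hd Γ 1), WReach B (B₁ ++ [p]) →
      B₁.length + 1 = B.length → Fl R (C ⊔ SpQ.E B₁) → SpQ.E [p] ≤ H) : SpQ.E B ≤ H := by
  refine hA Γ 1 (fun G => Fl R (C ⊔ G)) B H (fun h _ => good1 h) ?_ ?_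
  · intro B₃ hw3 _
    have hE3 : SpQ.E B₃ = SpQ.E B := hw3.E_eq
    have hlen3 : B₃.length = B.length := hw3.length_eq
    exact spare hi C B₃ (by rw [hE3]; exact ho) (by rw [hE3]; exact hF) (by omega)
  · intro B₃ p hw3 _ hfull
    have hlen3 : (B₃ ++ [p]).length = B.length := hw3.length_eq
    rw [List.length_append, List.length_singleton] at hlen3
    exact hH B₃ p hw3 hlen3 hfull

/-- a spare handle is moved to `P` -/
private def nxt {Λ : Subgroup Γ} (R : Λ →* Module.End K V₁ × Module.End K V₂) (C₀ : Subgroup Γ)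
    (s t : List (Hd Γ 1) × List (Hd Γ 1)) : Prop :=
  ∃ p : Hd Γ 1, t.2 = [p] ++ s.2 ∧ WReach s.1 (t.1 ++ [p]) ∧ t.1.length + 1 = s.1.length ∧
    Fl R (C₀ ⊔ SpQ.E t.1)

/-- **GROW** -/
theorem grow (hA : LGC.St_All) {Λ : Subgroup Γ} {R : Λ →* Module.End K V₁ × Module.End K V₂}
    (hi : Ir R) (C₀ C₁ : Subgroup Γ) (B : List (Hd Γ 1))
    (ho₀ : Orb Λ C₀ (C₀ ⊔ SpQ.E B)) (ho₁ : Orb Λ C₁ (C₁ ⊔ SpQ.E B))
    (hF₀ : Fl R (C₀ ⊔ SpQ.E B)) (hF₁ : Fl R (C₁ ⊔ SpQ.E B))
    (hlen : 8 * (finrank K V₁ - 1) + 8 * (finrank K V₂ - 1) + 3 ≤ B.length) :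
    ∃ B' P : List (Hd Γ 1), WReach B (B' ++ P) ∧ B'.length + P.length = B.length ∧
      P.length ≤ 4 * (finrank K V₁ - 1) + 4 * (finrank K V₂ - 1) + 1 ∧
      Fl R (C₀ ⊔ SpQ.E B') ∧ Fl R (C₁ ⊔ SpQ.E P) := by
  set m := 4 * (finrank K V₁ - 1) + 4 * (finrank K V₂ - 1) + 1 with hm
  let A : List (Hd Γ 1) × List (Hd Γ 1) → Subalgebra K (Module.End K V₁ × Module.End K V₂) :=
    fun s => alg K R ((C₁ ⊔ SpQ.E s.2).subgroupOf Λ)
  let s₀ : List (Hd Γ 1) × List (Hd Γ 1) := (B, [])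
  have hinv : ∀ s, ReflTransGen (nxt R C₀) s₀ s →
      WReach B (s.1 ++ s.2) ∧ s.1.length + s.2.length = B.length ∧ Fl R (C₀ ⊔ SpQ.E s.1) := by
    intro s hs
    induction hs with
    | refl =>
      refine ⟨?_, ?_, hF₀⟩
      · show WReach B (B ++ [])
        rw [List.append_nil]
        exact WReach.refl _
      · show B.length + 0 = B.length
        rw [add_zero]
    | @tail s t _ hst ih =>
      obtain ⟨h1, h2, h3⟩ := ih
      obtain ⟨p, e1, e2, e3, e4⟩ := hst
      refine ⟨?_, ?_, e4⟩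
      · rw [e1, ← List.append_assoc]
        exact h1.trans (SpQ.WReach.right e2 s.2)
      · rw [e1, List.length_append, List.length_singleton]
        omega
  obtain ⟨s, hs, hl1, hl2⟩ := dyn2 A (alg K R ⊤) (fun s => s.2.length) (nxt R C₀)
    (B.length - m) s₀
    (by
      rintro s t ⟨p, e1, -⟩
      show t.2.length = s.2.length + 1
      rw [e1, List.length_append, List.length_singleton]
      omega)
    (by
      rintro s t ⟨p, e1, -⟩
      refine alg_mono R (Subgroup.comap_mono (sup_le_sup le_rfl ?_))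
      rw [e1, SpQ.E_append]
      exact le_sup_right)
    (by
      intro s hs hsM T hT
      obtain ⟨h1, h2, h3⟩ := hinv s hs
      have hsM' : s.2.length < B.length - m := hsM
      have hEB : SpQ.E s.1 ⊔ SpQ.E s.2 = SpQ.E B := by
        rw [← SpQ.E_append]
        exact h1.E_eq
      have hs1B : SpQ.E s.1 ≤ SpQ.E B := by
        rw [← hEB]
        exact le_sup_left
      have hs2B : SpQ.E s.2 ≤ SpQ.E B := by
        rw [← hEB]
        exact le_sup_right
      have ho₀' : Orb Λ C₀ (C₀ ⊔ SpQ.E s.1) := ho₀.mono le_rfl (sup_le_sup le_rfl hs1B)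
      have hlen' : 4 * (finrank K V₁ - 1) + 4 * (finrank K V₂ - 1) + 1 < s.1.length := by omega
      -- the next states
      let ι : Type := {t : List (Hd Γ 1) × List (Hd Γ 1) // nxt R C₀ s t}
      let G : ι → Subgroup Γ := fun t => C₁ ⊔ SpQ.E t.1.2
      have hGT : ∀ t : ι, (G t).subgroupOf Λ ≤ sg R T := by
        rintro ⟨t, ht⟩
        rw [← alg_le_iff]
        exact hT t ht
      have hne : Nonempty ι := by
        obtain ⟨a, p, b, e1, e2⟩ := spare hi C₀ s.1 ho₀' h3 hlen'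
        obtain ⟨v, -, hr⟩ := LGP.move_end b p
        have hr' := hr.left a
        rw [← e1, ← List.append_assoc] at hr'
        refine ⟨(a ++ b, [SpQ.cj1 v p] ++ s.2), SpQ.cj1 v p, rfl, hr', ?_, e2⟩
        have h6 := hr'.length_eq
        rw [List.length_append, List.length_singleton] at h6
        exact h6
      have hEs : SpQ.E s.1 ≤ ⨆ t, G t := by
        refine gen hA hi C₀ s.1 ho₀' h3 hlen' _ ?_
        intro B₁ p e1 e2 e3
        refine le_trans ?_ (le_iSup G ⟨(B₁, [p] ++ s.2), p, rfl, e1, e2, e3⟩)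
        show SpQ.E [p] ≤ C₁ ⊔ SpQ.E ([p] ++ s.2)
        rw [SpQ.E_append]
        exact le_trans le_sup_left le_sup_right
      have hCs : ∀ t : ι, C₁ ⊔ SpQ.E s.2 ≤ G t := by
        rintro ⟨t, p, e1, -⟩
        show C₁ ⊔ SpQ.E s.2 ≤ C₁ ⊔ SpQ.E t.2
        rw [e1, SpQ.E_append]
        exact sup_le_sup le_rfl le_sup_right
      have hGle : (⨆ t, G t) ≤ C₁ ⊔ SpQ.E B := by
        refine iSup_le ?_
        rintro ⟨t, p, e1, e2, -⟩
        refine sup_le_sup le_rfl ?_
        show SpQ.E t.2 ≤ SpQ.E B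
        rw [e1, SpQ.E_append]
        refine sup_le (le_trans ?_ hs1B) hs2B
        rw [← e2.E_eq, SpQ.E_append]
        exact le_sup_right
      have hleG : C₁ ⊔ SpQ.E B ≤ ⨆ t, G t := by
        obtain ⟨t₀⟩ := hne
        rw [← hEB]
        refine sup_le (le_trans le_sup_left ((hCs t₀).trans (le_iSup G t₀))) (sup_le hEs ?_)
        exact le_trans le_sup_right ((hCs t₀).trans (le_iSup G t₀))
      have key : Λ ⊓ (⨆ t, G t) ≤ (sg R T).map Λ.subtype := by
        refine sch G (C := C₁ ⊔ SpQ.E s.2) hCs (ho₁.mono le_sup_left hGle) ?_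
        rintro t z ⟨hz, hz'⟩
        exact ⟨⟨z, hz⟩, hGT t (Subgroup.mem_subgroupOf.2 hz'), rfl⟩
      have h5 : alg K R ((C₁ ⊔ SpQ.E B).subgroupOf Λ) = alg K R ⊤ := hF₁
      rw [← h5, alg_le_iff]
      intro z hz
      obtain ⟨y, hy, hyz⟩ := key ⟨z.2, hleG (Subgroup.mem_subgroupOf.1 hz)⟩
      have h6 : y = z := Subtype.ext hyz
      rwa [← h6])
    (by
      intro W hW
      refine hi.1 W fun x v hv => ?_
      exact hW.apply ⟨R x, mem_alg R (Subgroup.mem_top x), rfl⟩ hv)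
    (by
      intro W hW
      refine hi.2 W fun x v hv => ?_
      exact hW.apply ⟨R x, mem_alg R (Subgroup.mem_top x), rfl⟩ hv)
    (by
      show 0 + _ ≤ _
      omega)
  obtain ⟨h1, h2, h3⟩ := hinv s hs
  refine ⟨s.1, s.2, h1, h2, ?_, h3, le_antisymm (alg_mono R le_top) hl2⟩
  have h7 : s.2.length ≤ 0 + m := hl1
  omega

end gro

end Pool.Agent.EKH
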