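import Pool.Agent.EKL.Grf

/-!
# Schreier generators; lists with a transitive context

Helper33, for MP_0707f5_ag (arbitrary subgroups of small index).

`Λ` is any subgroup of `Γ`, `R` a pair of representations of `Λ`.  `Orb Λ C G`: the orbit of the base
coset under `C` contains its orbit under `G`.  If this orbit does not change then the part of `Λ` in the
group of a list is generated by the parts in the groups of the list with one handle more.
-/

set_option autoImplicit false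

namespace Pool.Agent.EKH

open Module Relation
open SpQ (Hd WReach)
open EKL (alg alg_mono mem_alg sg alg_le_iff St Fl Ir two)

section sch
variable {Γ : Type} [Group Γ]

/-- the orbit of the base coset under `C` contains its orbit under `G` -/
def Orb (Λ C G : Subgroup Γ) : Prop := ∀ g ∈ G, ∃ h ∈ C, h⁻¹ * g ∈ Λ

theorem Orb.mono {Λ C C' G G' : Subgroup Γ} (h : Orb Λ C G) (hC : C ≤ C') (hG : G' ≤ G) :
    Orb Λ C' G' := by
  intro g hg
  obtain ⟨x, hx, h1⟩ := h g (hG hg)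
  exact ⟨x, hC hx, h1⟩

/-- **Schreier generators** -/
theorem sch {ι : Type} [Nonempty ι] {Λ C : Subgroup Γ} (G : ι → Subgroup Γ) (hC : ∀ i, C ≤ G i)
    (ho : Orb Λ C (⨆ i, G i)) {T : Subgroup Γ} (hT : ∀ i, Λ ⊓ G i ≤ T) :
    Λ ⊓ (⨆ i, G i) ≤ T := by
  have hcl : (⨆ i, G i) = Subgroup.closure (⋃ i, (G i : Set Γ)) := Subgroup.iSup_eq_closure G
  have key : ∀ g ∈ Subgroup.closure (⋃ i, (G i : Set Γ)), ∀ h ∈ C, h⁻¹ * g ∈ Λ →
      h⁻¹ * g ∈ T := by
    have step : ∀ (i : ι) (s : Γ), s ∈ G i → ∀ y ∈ Subgroup.closure (⋃ i, (G i : Set Γ)),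
        (∀ h ∈ C, h⁻¹ * y ∈ Λ → h⁻¹ * y ∈ T) →
        ∀ h ∈ C, h⁻¹ * (s * y) ∈ Λ → h⁻¹ * (s * y) ∈ T := by
      intro i s hs y hy ih h hh hsy
      obtain ⟨h', hh', h1⟩ := ho y (by rw [hcl]; exact hy)
      have h2 := ih h' hh' h1
      have h3 : h⁻¹ * s * h' ∈ Λ := by
        have e : h⁻¹ * s * h' = h⁻¹ * (s * y) * (h'⁻¹ * y)⁻¹ := by group
        rw [e]
        exact Λ.mul_mem hsy (Λ.inv_mem h1)
      have h4 : h⁻¹ * s * h' ∈ G i :=
        (G i).mul_mem ((G i).mul_mem ((G i).inv_mem (hC i hh)) hs) (hC i hh')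
      have e : h⁻¹ * (s * y) = h⁻¹ * s * h' * (h'⁻¹ * y) := by group
      rw [e]
      exact T.mul_mem (hT i ⟨h3, h4⟩) h2
    intro g hg
    refine Subgroup.closure_induction_left (p := fun g _ => ∀ h ∈ C, h⁻¹ * g ∈ Λ → h⁻¹ * g ∈ T)
      ?_ ?_ ?_ hg
    · intro h hh h1
      obtain ⟨i⟩ := ‹Nonempty ι›
      refine hT i ⟨h1, ?_⟩
      rw [mul_one]
      exact (G i).inv_mem (hC i hh)
    · intro x hx y hy ih
      obtain ⟨i, hi⟩ := Set.mem_iUnion.1 hx
      exact step i x hi y hy ih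
    · intro x hx y hy ih
      obtain ⟨i, hi⟩ := Set.mem_iUnion.1 hx
      exact step i x⁻¹ ((G i).inv_mem hi) y hy ih
  rintro z ⟨hz, hz'⟩
  rw [hcl] at hz'
  have h1 := key z hz' 1 C.one_mem (by rwa [inv_one, one_mul])
  rwa [inv_one, one_mul] at h1

end sch

section ess
variable {K V₁ V₂ : Type*} [Field K] [IsAlgClosed K] [AddCommGroup V₁] [Module K V₁]
  [FiniteDimensional K V₁] [Nontrivial V₁] [AddCommGroup V₂] [Module K V₂]
  [FiniteDimensional K V₂] [Nontrivial V₂] {Γ : Type} [Group Γ] {k : ℕ}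

/-- the handles at the given positions -/
def pos (B : List (Hd Γ k)) (I : Finset (Fin B.length)) : List (Hd Γ k) :=
  ((List.finRange B.length).filter (· ∈ I)).map B.get

omit [Group Γ] in
theorem mem_pos {B : List (Hd Γ k)} {I : Finset (Fin B.length)} {q : Hd Γ k} :
    q ∈ pos B I ↔ ∃ i ∈ I, B.get i = q := by
  unfold pos
  constructor
  · intro h
    obtain ⟨i, hi, hq⟩ := List.mem_map.1 h
    exact ⟨i, by simpa using (List.mem_filter.1 hi).2, hq⟩
  · rintro ⟨i, hi, hq⟩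
    exact List.mem_map.2 ⟨i, List.mem_filter.2 ⟨List.mem_finRange i, by simpa using hi⟩, hq⟩

theorem E_le_iff {B : List (Hd Γ k)} {G : Subgroup Γ} :
    SpQ.E B ≤ G ↔ ∀ q ∈ B, SpQ.E [q] ≤ G := by
  constructor
  · intro h q hq
    refine le_trans ?_ h
    obtain ⟨s, t, rfl⟩ := List.append_of_mem hq
    have e : s ++ q :: t = s ++ ([q] ++ t) := rfl
    rw [e, SpQ.E_append, SpQ.E_append]
    exact le_trans le_sup_left le_sup_right
  · intro h
    induction B with
    | nil =>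
      have e : SpQ.E ([] : List (Hd Γ k)) = ⊥ := by
        unfold SpQ.E
        rw [Subgroup.closure_eq_bot_iff]
        intro y hy
        exact absurd hy (by simp [SpQ.entries])
      rw [e]
      exact bot_le
    | cons a B ih =>
      have e : a :: B = [a] ++ B := rfl
      rw [e, SpQ.E_append]
      exact sup_le (h a List.mem_cons_self) (ih fun q hq => h q (List.mem_cons_of_mem _ hq))

theorem E_sub {B C : List (Hd Γ k)} (h : ∀ q ∈ B, q ∈ C) : SpQ.E B ≤ SpQ.E C :=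
  E_le_iff.2 fun q hq => E_le_iff.1 le_rfl q (h q hq)

theorem E_pos_le (B : List (Hd Γ k)) (I : Finset (Fin B.length)) : SpQ.E (pos B I) ≤ SpQ.E B := by
  refine E_sub fun q hq => ?_
  obtain ⟨i, -, rfl⟩ := mem_pos.1 hq
  exact List.get_mem _ _

theorem E_pos_univ (B : List (Hd Γ k)) : SpQ.E (pos B Finset.univ) = SpQ.E B := by
  refine le_antisymm (E_pos_le B _) (E_sub fun q hq => ?_)
  obtain ⟨i, hi⟩ := List.get_of_mem hq
  exact mem_pos.2 ⟨i, Finset.mem_univ i, hi⟩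

theorem E_pos_mono (B : List (Hd Γ k)) {I J : Finset (Fin B.length)} (h : I ⊆ J) :
    SpQ.E (pos B I) ≤ SpQ.E (pos B J) := by
  refine E_sub fun q hq => ?_
  obtain ⟨i, hi, hq⟩ := mem_pos.1 hq
  exact mem_pos.2 ⟨i, h hi, hq⟩

/-- **a bounded number of handles is enough** -/
theorem ess {Λ : Subgroup Γ} {R : Λ →* Module.End K V₁ × Module.End K V₂} (hi : Ir R)
    (C : Subgroup Γ) (B : List (Hd Γ k)) (ho : Orb Λ C (C ⊔ SpQ.E B))
    (hF : Fl R (C ⊔ SpQ.E B)) :
    ∃ I : Finset (Fin B.length), I.card ≤ 4 * (finrank K V₁ - 1) + 4 * (finrank K V₂ - 1) + 1 ∧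
      Fl R (C ⊔ SpQ.E (pos B I)) := by
  classical
  let A : Finset (Fin B.length) → Subalgebra K (Module.End K V₁ × Module.End K V₂) := fun I =>
    alg K R ((C ⊔ SpQ.E (pos B I)).subgroupOf Λ)
  have hAu : A Finset.univ = alg K R ⊤ := by
    show alg K R ((C ⊔ SpQ.E (pos B Finset.univ)).subgroupOf Λ) = alg K R ⊤
    rw [E_pos_univ]
    exact hF
  have hm : Monotone A := by
    intro I J hIJ
    exact alg_mono R (Subgroup.comap_mono (sup_le_sup le_rfl (E_pos_mono B hIJ)))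
  have hg : ∀ I ⊂ Finset.univ, A Finset.univ ≤ ⨆ j ∈ Finset.univ \ I, A (insert j I) := by
    intro I hI
    set T : Subalgebra K (Module.End K V₁ × Module.End K V₂) :=
      ⨆ j ∈ Finset.univ \ I, A (insert j I) with hT
    have hAT : ∀ j ∈ Finset.univ \ I, (C ⊔ SpQ.E (pos B (insert j I))).subgroupOf Λ ≤
        sg R T := by
      intro j hj
      rw [← alg_le_iff]
      exact le_iSup₂_of_le j hj le_rfl
    obtain ⟨j₀, hj₀⟩ : ∃ j₀, j₀ ∈ Finset.univ \ I := Finset.sdiff_nonempty.2 hI.2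
    have hne : Nonempty {j // j ∈ Finset.univ \ I} := ⟨⟨j₀, hj₀⟩⟩
    let G : {j // j ∈ Finset.univ \ I} → Subgroup Γ := fun j => C ⊔ SpQ.E (pos B (insert j.1 I))
    have hGle : (⨆ j, G j) ≤ C ⊔ SpQ.E B := iSup_le fun j => sup_le_sup le_rfl (E_pos_le B _)
    have hleG : C ⊔ SpQ.E B ≤ ⨆ j, G j := by
      refine sup_le (le_trans le_sup_left (le_iSup G ⟨j₀, hj₀⟩)) ?_
      rw [E_le_iff]
      intro q hq
      obtain ⟨i, hiq⟩ := List.get_of_mem hq
      obtain ⟨j, hj, hqj⟩ : ∃ j ∈ Finset.univ \ I, q ∈ pos B (insert j I) := by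
        by_cases hiI : i ∈ I
        · exact ⟨j₀, hj₀, mem_pos.2 ⟨i, Finset.mem_insert_of_mem hiI, hiq⟩⟩
        · exact ⟨i, Finset.mem_sdiff.2 ⟨Finset.mem_univ i, hiI⟩,
            mem_pos.2 ⟨i, Finset.mem_insert_self i I, hiq⟩⟩
      exact le_trans (le_trans (E_le_iff.1 le_rfl q hqj) le_sup_right) (le_iSup G ⟨j, hj⟩)
    have key : Λ ⊓ (⨆ j, G j) ≤ (sg R T).map Λ.subtype := by
      refine sch G (C := C) (fun j => le_sup_left) (ho.mono le_rfl hGle) ?_
      rintro ⟨j, hj⟩ z ⟨hz, hz'⟩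
      exact ⟨⟨z, hz⟩, hAT j hj (Subgroup.mem_subgroupOf.2 hz'), rfl⟩
    show alg K R ((C ⊔ SpQ.E (pos B Finset.univ)).subgroupOf Λ) ≤ T
    rw [E_pos_univ, alg_le_iff]
    intro z hz
    obtain ⟨y, hy, hyz⟩ := key ⟨z.2, hleG (Subgroup.mem_subgroupOf.1 hz)⟩
    have h3 : y = z := Subtype.ext hyz
    rwa [← h3]
  obtain ⟨I, -, hcard, hI⟩ := two Finset.univ A hm hg
    (by
      intro W hW
      rw [hAu] at hW
      exact hi.1 W fun x v hv => hW.apply ⟨R x, mem_alg R (Subgroup.mem_top x), rfl⟩ hv)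
    (by
      intro W hW
      rw [hAu] at hW
      exact hi.2 W fun x v hv => hW.apply ⟨R x, mem_alg R (Subgroup.mem_top x), rfl⟩ hv)
  exact ⟨I, hcard, hI.trans hAu⟩

/-- **a long list contains a spare handle** -/
theorem spare {Λ : Subgroup Γ} {R : Λ →* Module.End K V₁ × Module.End K V₂} (hi : Ir R)
    (C : Subgroup Γ) (B : List (Hd Γ k)) (ho : Orb Λ C (C ⊔ SpQ.E B))
    (hF : Fl R (C ⊔ SpQ.E B))
    (hlen : 4 * (finrank K V₁ - 1) + 4 * (finrank K V₂ - 1) + 1 < B.length) :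
    ∃ (s : List (Hd Γ k)) (p : Hd Γ k) (t : List (Hd Γ k)), B = s ++ p :: t ∧
      Fl R (C ⊔ SpQ.E (s ++ t)) := by
  obtain ⟨I, hcard, hI⟩ := ess hi C B ho hF
  obtain ⟨i, hi⟩ : ∃ i : Fin B.length, i ∉ I := by
    by_contra hcon
    push Not at hcon
    have h3 : I = Finset.univ := Finset.eq_univ_of_forall hcon
    rw [h3, Finset.card_univ, Fintype.card_fin] at hcard
    omega
  have hsplit : B = B.take i ++ B.get i :: B.drop (i + 1) := by
    rw [List.get_eq_getElem, List.getElem_cons_drop, List.take_append_drop]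
  refine ⟨B.take i, B.get i, B.drop (i + 1), hsplit, hI.mono ?_⟩
  refine sup_le_sup le_rfl (E_sub fun q hq => ?_)
  obtain ⟨j, hj, rfl⟩ := mem_pos.1 hq
  have hji : j ≠ i := fun h => hi (h ▸ hj)
  rcases lt_or_gt_of_ne hji with hlt | hlt
  · apply List.mem_append_left
    rw [List.mem_take_iff_getElem]
    exact ⟨j, by
      rw [lt_min_iff]
      exact ⟨hlt, j.2⟩, rfl⟩
  · apply List.mem_append_right
    rw [List.mem_drop_iff_getElem]
    refine ⟨(j : ℕ) - (i + 1), ?_, ?_⟩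
    · have := j.2
      omega
    · have h5 : (i : ℕ) + 1 + (j - (i + 1)) = j := by
        have : (i : ℕ) < j := hlt
        omega
      simp only [h5, List.get_eq_getElem]

end ess

end Pool.Agent.EKH
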